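import Mathlib
import Pool.Agent.V11180.Delsarte
import Pool.Agent.V11180.F4

/-!
# MP_bf8bcd_co: an additive MRD code containing no field spread set

There is an additive MRD code of `3 × 3` matrices over the field with four elements with minimum
distance `2` which contains no code equivalent to the field spread set.
-/

set_option autoImplicit false

open Module Matrix

namespace Pool.Agent.Results.MP_bf8bcd_co.NoFieldInside

open Pool.Agent.V11180.Delsarte Pool.Agent.V11180

/-- `C` is an additive MRD code with minimum distance `d`: the least rank of a difference of two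
distinct elements of `C` is `d`, and `C` has `q ^ (n (n - d + 1))` elements. -/
def IsAdditiveMRD {F : Type} [Field F] [Fintype F] {n : ℕ}
    (C : AddSubgroup (Matrix (Fin n) (Fin n) F)) (d : ℕ) : Prop :=
  (∃ A ∈ C, ∃ B ∈ C, A ≠ B ∧ (A - B).rank = d) ∧
  (∀ A ∈ C, ∀ B ∈ C, A ≠ B → d ≤ (A - B).rank) ∧
  Nat.card C = Fintype.card F ^ (n * (n - d + 1))

/-- The field spread set: the matrices of the maps `x ↦ a x` of the extension `K` of `F`, with
respect to an `F`-basis `b` of `K`. -/
def fieldSpreadSet {F K : Type} [Field F] [Field K] [Algebra F K] {n : ℕ}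
    (b : Basis (Fin n) F K) : Set (Matrix (Fin n) (Fin n) F) :=
  Set.range (fun a : K => Algebra.leftMulMatrix b a)

/-- Two sets of matrices are equivalent if one is obtained from the other by an entrywise field
automorphism, possibly followed by the transposition, and multiplication by invertible matrices on
both sides. -/
def Equivalent {F : Type} [Field F] {n : ℕ} (C C' : Set (Matrix (Fin n) (Fin n) F)) : Prop :=
  ∃ (A B : GL (Fin n) F) (σ : F ≃+* F),
    C' = (fun X => A.1 * X.map σ * B.1) '' C ∨ C' = (fun X => A.1 * (X.map σ)ᵀ * B.1) '' C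

/-! ### Coding of matrices -/

abbrev M := Matrix (Fin 3) (Fin 3) F4

/-- the matrix coded by a number -/
def mt (m : ℕ) : M := fun i j =>
  F4.e (m.testBit (2 * (3 * i + j))) (m.testBit (2 * (3 * i + j) + 1))

lemma mt_xor (a b : ℕ) : mt (a ^^^ b) = mt a + mt b := by
  ext i j
  simp only [mt, Matrix.add_apply, Nat.testBit_xor]
  rw [F4.e_xor]

lemma mt_zero : mt 0 = 0 := by
  ext i j
  simp only [mt, Nat.zero_testBit]
  rfl

/-- the generators of the spread set -/
def gen : Fin 6 → ℕ := ![0x10101, 0x0b582, 0x3abc4, 0x25048, 0x24390, 0x370e0]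

/-- the elements of the spread set -/
def sc (k : ℕ) : ℕ :=
  (((if k.testBit 0 then gen 0 else 0) ^^^ (if k.testBit 1 then gen 1 else 0)) ^^^
    ((if k.testBit 2 then gen 2 else 0) ^^^ (if k.testBit 3 then gen 3 else 0))) ^^^
    ((if k.testBit 4 then gen 4 else 0) ^^^ (if k.testBit 5 then gen 5 else 0))

/-- the determinant -/
def d3 (A : M) : F4 :=
  A 0 0 * A 1 1 * A 2 2 - A 0 0 * A 1 2 * A 2 1 - A 0 1 * A 1 0 * A 2 2 +
    A 0 1 * A 1 2 * A 2 0 + A 0 2 * A 1 0 * A 2 1 - A 0 2 * A 1 1 * A 2 0

lemma det_eq (A : M) : A.det = d3 A := Matrix.det_fin_three A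

lemma sc_det : ∀ k : Fin 64, k ≠ 0 → d3 (mt (sc k)) ≠ 0 := by decide +kernel

lemma sc_row : ∀ k l : Fin 64, (∀ j : Fin 3, mt (sc k) 0 j = mt (sc l) 0 j) → k = l := by
  decide +kernel

lemma sc_closed : ∀ k l : Fin 64, sc k ^^^ sc l = sc (k.val ^^^ l.val) ∧ k.val ^^^ l.val < 64 := by
  decide +kernel

/-- the spread set -/
def S : AddSubgroup M where
  carrier := Set.range (fun k : Fin 64 => mt (sc k))
  add_mem' := by
    rintro _ _ ⟨k, rfl⟩ ⟨l, rfl⟩
    obtain ⟨h1, h2⟩ := sc_closed k l
    exact ⟨⟨k.val ^^^ l.val, h2⟩, by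
      show mt (sc (k.val ^^^ l.val)) = _
      rw [← h1, mt_xor]⟩
  zero_mem' := ⟨0, by simp [sc, mt_zero]⟩
  neg_mem' := by
    rintro _ ⟨k, rfl⟩
    refine ⟨k, ?_⟩
    have h : mt (sc k) + mt (sc k) = 0 := by rw [← mt_xor, Nat.xor_self, mt_zero]
    exact (neg_eq_of_add_eq_zero_left h).symm

lemma card_S : Nat.card S = 4 ^ 3 := by
  have hinj : Function.Injective (fun k : Fin 64 => mt (sc k)) := by
    intro k l h
    exact sc_row k l (fun j => congrFun (congrFun h 0) j)
  have h : Nat.card S = Nat.card (Set.range (fun k : Fin 64 => mt (sc k))) := rfl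
  rw [h, Nat.card_range_of_injective hinj, Nat.card_eq_fintype_card, Fintype.card_fin]
  norm_num

/-- the pairings with the generators -/
def Λ : M →ₗ[F4] (Fin 6 → F4) where
  toFun X := fun k => pair X (mt (gen k))
  map_add' := by
    intro X Y
    ext k
    exact pair_add_left _ _ _
  map_smul' := by
    intro c X
    ext k
    simp [pair, Finset.mul_sum, mul_assoc]

/-- the additive map whose kernel is the code -/
def Ψ : M →+ (Fin 6 → ZMod 2) where
  toFun X := fun k => F4.tr (Λ X k)
  map_zero' := by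
    ext k
    simp
  map_add' := by
    intro X Y
    ext k
    simp

/-- the code -/
def C : AddSubgroup M := Ψ.ker

lemma mem_C (X : M) : X ∈ C ↔ ∀ k : Fin 6, F4.tr (pair X (mt (gen k))) = 0 := by
  change Ψ X = 0 ↔ _
  rw [funext_iff]
  rfl

lemma tz_ite (c : Bool) (m : ℕ) (X : M)
    (h : F4.tr (pair X (mt m)) = 0) : F4.tr (pair X (mt (if c then m else 0))) = 0 := by
  cases c
  · simp [mt_zero, pair]
  · simpa using h

lemma pair_sc {X : M} (hX : X ∈ C) (k : ℕ) : F4.tr (pair X (mt (sc k))) = 0 := by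
  rw [mem_C] at hX
  simp only [sc, mt_xor, pair_add_right, map_add]
  rw [tz_ite _ _ _ (hX 0), tz_ite _ _ _ (hX 1), tz_ite _ _ _ (hX 2), tz_ite _ _ _ (hX 3),
    tz_ite _ _ _ (hX 4), tz_ite _ _ _ (hX 5)]
  simp

lemma C_min {X : M} (hX : X ∈ C) (hne : X ≠ 0) : 2 ≤ X.rank := by
  by_contra hcon
  apply hne
  apply eq_zero_of_rank_le F4.tr F4.tr_nondeg S 3
    (by norm_num) le_rfl ?_ (by rw [card_S, F4.card]) X ?_ (by omega)
  · rintro _ ⟨k, rfl⟩ hk
    have hk0 : k ≠ 0 := by
      rintro rfl
      apply hk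
      simp [sc, mt_zero]
    have h1 : IsUnit (mt (sc k)) := by
      rw [Matrix.isUnit_iff_isUnit_det, det_eq]
      exact (sc_det k hk0).isUnit
    show 3 ≤ (mt (sc k)).rank
    rw [Matrix.rank_of_isUnit _ h1]
    simp
  · rintro _ ⟨k, rfl⟩
    rw [pair_comm]
    exact pair_sc hX k

/-- the element with given traces -/
def fr (a b : ZMod 2) : F4 :=
  if a = 1 then (if b = 1 then F4.w else F4.v) else (if b = 1 then F4.i else F4.o)

/-- a matrix with prescribed image -/
def pre (c : Fin 6 → ZMod 2) : M :=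
  !![fr (c 0) (c 1), fr (c 2) (c 3), fr (c 4) (c 5); 0, 0, 0; 0, 0, 0]

lemma pre_spec : ∀ c : Fin 6 → ZMod 2, ∀ k, F4.tr (pair (pre c) (mt (gen k))) = c k := by
  decide +kernel

lemma Ψ_surj : Function.Surjective Ψ := fun c => ⟨pre c, funext (fun k => pre_spec c k)⟩

lemma card_C : Nat.card C = 4 ^ 6 := by
  have h1 := AddSubgroup.card_mul_index C
  have h2 : C.index = Nat.card Ψ.range := AddSubgroup.index_ker Ψ
  rw [h2, AddMonoidHom.range_eq_top.2 Ψ_surj] at h1
  have h3 : Nat.card (⊤ : AddSubgroup (Fin 6 → ZMod 2)) = 2 ^ 6 := by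
    rw [AddSubgroup.card_top, Nat.card_eq_fintype_card, Fintype.card_fun, ZMod.card,
      Fintype.card_fin]
  have h4 : Nat.card M = 4 ^ 9 := by
    rw [Nat.card_eq_fintype_card]
    have : Fintype.card M = Fintype.card (Fin 3 → Fin 3 → F4) := rfl
    rw [this, Fintype.card_fun, Fintype.card_fun, F4.card, Fintype.card_fin]
    norm_num
  rw [h3, h4] at h1
  have h5 : Nat.card C * 2 ^ 6 = 4 ^ 6 * 2 ^ 6 := by rw [h1]; norm_num
  exact Nat.eq_of_mul_eq_mul_right (by norm_num) h5

/-- a singular element of the dual of the span -/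
def Z : M := mt 0x10491

lemma Z_dual : ∀ k : Fin 6, pair Z (mt (gen k)) = 0 := by
  decide +kernel

lemma Z_ne : Z ≠ 0 := by
  decide +kernel

lemma Z_ker : (![F4.i, F4.v, F4.w] : Fin 3 → F4) ᵥ* Z = 0 := by
  decide +kernel

lemma Z_mem : Z ∈ C := by
  rw [mem_C]
  intro k
  rw [Z_dual k, map_zero]

lemma Z_not_unit : ¬ IsUnit Z := by
  rw [Matrix.isUnit_iff_isUnit_det, det_eq]
  have h : d3 Z = 0 := by decide +kernel
  rw [h]
  exact not_isUnit_zero

lemma Z_rank : Z.rank = 2 := by
  refine le_antisymm ?_ (C_min Z_mem Z_ne)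
  rw [← Matrix.rank_transpose]
  have h3 := LinearMap.finrank_range_add_finrank_ker (Zᵀ).mulVecLin
  rw [finrank_fin_fun] at h3
  have h4 : 0 < finrank F4 (LinearMap.ker (Zᵀ).mulVecLin) := by
    rw [Module.finrank_pos_iff, Submodule.nontrivial_iff_ne_bot, Submodule.ne_bot_iff]
    refine ⟨![F4.i, F4.v, F4.w], ?_, ?_⟩
    · rw [LinearMap.mem_ker, Matrix.mulVecLin_apply, Matrix.mulVec_transpose, Z_ker]
    · decide +kernel
  change finrank F4 (LinearMap.range (Zᵀ).mulVecLin) ≤ 2
  omega

/-! ### The linear part of the code -/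

/-- matrices dual to the generators -/
def dl : Fin 6 → ℕ := ![0x6d, 0xd8, 0xcb4, 0x860, 0xe6e, 0x9e9]

lemma dl_spec : ∀ j k : Fin 6, pair (mt (dl j)) (mt (gen k)) = if k = j then 1 else 0 := by
  decide +kernel

lemma Λ_surj : Function.Surjective Λ := by
  intro c
  refine ⟨∑ j, c j • mt (dl j), ?_⟩
  rw [map_sum]
  ext k
  rw [Finset.sum_apply]
  simp only [map_smul, Pi.smul_apply]
  have h : ∀ j, Λ (mt (dl j)) k = if k = j then 1 else 0 := fun j => dl_spec j k
  simp [h]

lemma card_ker : Nat.card (LinearMap.ker Λ) = 64 := by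
  have h1 := LinearMap.finrank_range_add_finrank_ker Λ
  rw [LinearMap.range_eq_top.2 Λ_surj, finrank_top, finrank_fin_fun, Module.finrank_matrix] at h1
  simp only [Fintype.card_fin, finrank_self] at h1
  rw [Module.natCard_eq_pow_finrank (K := F4), Nat.card_eq_fintype_card, F4.card,
    show finrank F4 (LinearMap.ker Λ) = 3 by omega]
  norm_num

/-- A subset of the code closed under scalars lies in the kernel of `Λ`. -/
lemma mem_ker_of_smul {X : M} (h : ∀ c : F4, c • X ∈ C) : X ∈ LinearMap.ker Λ := by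
  rw [LinearMap.mem_ker]
  ext k
  apply F4.tr_nondeg
  intro c
  have h1 := (mem_C _).1 (h c) k
  have h2 : pair (c • X) (mt (gen k)) = c * Λ X k := by
    have := congrFun (Λ.map_smul c X) k
    exact this
  rw [h2] at h1
  exact h1

/-- the field spread set has `64` elements, contains `0`, is closed under scalars and all its
other elements are invertible -/
lemma not_subset (C' : Set M) (hcard : C'.ncard = 64) (hsmul : ∀ X ∈ C', ∀ c : F4, c • X ∈ C')
    (hunit : ∀ X ∈ C', X ≠ 0 → IsUnit X) : ¬ C' ⊆ (C : Set M) := by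
  intro hsub
  have h1 : C' ⊆ (LinearMap.ker Λ : Set M) \ {Z} := by
    intro X hX
    refine ⟨mem_ker_of_smul (fun c => hsub (hsmul X hX c)), ?_⟩
    rintro rfl
    exact Z_not_unit (hunit Z hX Z_ne)
  have h2 : Z ∈ (LinearMap.ker Λ : Set M) := by
    show Λ Z = 0
    ext k
    exact Z_dual k
  have h3 := Set.ncard_le_ncard h1 (Set.toFinite _)
  have h4 := Set.ncard_sdiff_singleton_add_one h2 (Set.toFinite _)
  have h5 : (LinearMap.ker Λ : Set M).ncard = 64 := card_ker
  omega

/-- **An additive MRD code need not contain a field spread set**: over a field `F` with four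
elements there is an additive MRD code of `3 × 3` matrices with minimum distance `2` that contains
no code equivalent to the field spread set of a cubic extension of `F`. -/
theorem result : ∃ (F : Type) (_ : Field F) (_ : Fintype F)
    (C : AddSubgroup (Matrix (Fin 3) (Fin 3) F)), Fintype.card F = 4 ∧ IsAdditiveMRD C 2 ∧
      ∀ (K : Type) [Field K] [Algebra F K] (b : Basis (Fin 3) F K)
        (C' : Set (Matrix (Fin 3) (Fin 3) F)),
        Equivalent (fieldSpreadSet b) C' → ¬ C' ⊆ (C : Set (Matrix (Fin 3) (Fin 3) F)) := by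
  refine ⟨F4, inferInstance, inferInstance, C, F4.card, ⟨?_, ?_, ?_⟩, ?_⟩
  · refine ⟨Z, Z_mem, 0, C.zero_mem, Z_ne, ?_⟩
    rw [sub_zero]
    exact Z_rank
  · intro X hX Y hY hne
    exact C_min (C.sub_mem hX hY) (sub_ne_zero.2 hne)
  · rw [card_C, F4.card]
  · intro K _ _ b C' hC'
    have hcardK : Nat.card K = 64 := by
      rw [Nat.card_congr b.equivFun.toEquiv, Nat.card_eq_fintype_card, Fintype.card_fun, F4.card,
        Fintype.card_fin]
      norm_num
    -- common argument for both kinds of equivalence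
    have main : ∀ f : M → M, Function.Injective f → (∀ X, IsUnit X → IsUnit (f X)) →
        (∀ X, ∀ c : F4, ∃ c' : F4, c • f X = f (c' • X)) → f 0 = 0 →
        ¬ f '' (fieldSpreadSet b) ⊆ (C : Set M) := by
      intro f hf hu hs h0
      apply not_subset
      · rw [Set.ncard_image_of_injective _ hf]
        have : (fieldSpreadSet b).ncard = Nat.card K := by
          rw [fieldSpreadSet, ← Set.image_univ,
            Set.ncard_image_of_injective _ (Algebra.leftMulMatrix_injective b), Set.ncard_univ]
        rw [this, hcardK]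
      · rintro _ ⟨_, ⟨a, rfl⟩, rfl⟩ c
        obtain ⟨c', hc'⟩ := hs (Algebra.leftMulMatrix b a) c
        refine ⟨_, ⟨c' • a, rfl⟩, ?_⟩
        show f (Algebra.leftMulMatrix b (c' • a)) = c • f (Algebra.leftMulMatrix b a)
        rw [map_smul, ← hc']
      · rintro _ ⟨_, ⟨a, rfl⟩, rfl⟩ hne
        apply hu
        have ha : a ≠ 0 := by
          rintro rfl
          apply hne
          simp only [map_zero, h0]
        exact (IsUnit.mk0 a ha).map (Algebra.leftMulMatrix b)
    obtain ⟨A, B, σ, hC'' | hC''⟩ := hC'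
    · rw [hC'']
      apply main
      · intro X Y h
        have h1 : X.map σ = Y.map σ := by
          have h2 := congrArg (fun T => (A⁻¹).1 * T * (B⁻¹).1) h
          simpa [Matrix.mul_assoc] using h2
        exact Matrix.map_injective σ.injective h1
      · intro X hX
        have h1 : IsUnit (X.map σ) := hX.map (RingHom.mapMatrix (σ : F4 →+* F4))
        exact (A.isUnit.mul h1).mul B.isUnit
      · intro X c
        refine ⟨σ.symm c, ?_⟩
        have h1 : (σ.symm c • X).map σ = c • X.map σ := by
          ext i j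
          simp
        simp [h1]
      · simp
    · rw [hC'']
      apply main
      · intro X Y h
        have h1 : (X.map σ)ᵀ = (Y.map σ)ᵀ := by
          have h2 := congrArg (fun T => (A⁻¹).1 * T * (B⁻¹).1) h
          simpa [Matrix.mul_assoc] using h2
        exact Matrix.map_injective σ.injective (Matrix.transpose_injective h1)
      · intro X hX
        have h1 : IsUnit (X.map σ) := hX.map (RingHom.mapMatrix (σ : F4 →+* F4))
        have h2 : IsUnit (X.map σ)ᵀ := (Matrix.isUnit_transpose _).2 h1
        exact (A.isUnit.mul h2).mul B.isUnit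
      · intro X c
        refine ⟨σ.symm c, ?_⟩
        have h1 : (σ.symm c • X).map σ = c • X.map σ := by
          ext i j
          simp
        simp [h1]
      · simp

end Pool.Agent.Results.MP_bf8bcd_co.NoFieldInside
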